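import Pool.Agent.helper5.CuspP.Proj

/-!
# MP_3ba528_ag: real plane curves with more than `d ^ 2 / 4` real cusps, in every large degree

Definitions (`Pool/Agent/helper5/CuspP/Defs.lean`): a real plane curve of degree `d` is a form `F` of degree `d` in three
variables over `ℝ` without repeated factors; `IsCusp F w`: `F = 0` has an ordinary cusp at the point `w`; `realCusps F`: the
set of the real cusps, in the real projective plane; `kmaxR d`: the maximal number of real cusps.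

The curves: patchworking of 30 tiles (quadrilaterals, pentagons, hexagons with 1, 2, 3 real cusps) gives a real polynomial of
degree 15 with 57 real cusps off the axes; it is pulled back by `(x, y) ↦ (A T_n(x), B T_n(y))` (Chebyshev polynomials), which
gives `57 n ^ 2` real cusps in degree `15 n`. A double factor of the polynomial cannot vanish at a cusp, so we can omit
it, and lines are added to get any degree `d ≥ 15 n`.
-/

set_option autoImplicit false

namespace Pool.Agent.Results.MP_3ba528_ag.AboveOneQuarter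

open MvPolynomial Filter Topology Pool.Agent.helper5.CuspP
open scoped LinearAlgebra.Projectivization ENNReal

theorem curves (d : ℕ) (hd : 15 ≤ d) : ∃ F : MvPolynomial (Fin 3) ℝ, F.IsHomogeneous d ∧ Squarefree F ∧
    ∃ S : Finset (ℙ ℝ (Fin 3 → ℝ)), (∀ P ∈ S, IsCusp F P.rep) ∧ (19 / 75 : ℝ) * ((d : ℝ) - 14) ^ 2 ≤ S.card := by
  have hn : 0 < d / 15 := Nat.div_pos hd (by norm_num)
  obtain ⟨F, h1, h2, S, h3, h4⟩ := exists_curve d (d / 15) hn (Nat.mul_div_le d 15)
  refine ⟨F, h1, h2, S, h4, ?_⟩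
  rw [h3]
  have h5 : d ≤ 15 * (d / 15) + 14 := by omega
  have h6 : ((d : ℝ) - 14) ≤ 15 * ((d / 15 : ℕ) : ℝ) := by
    have : (d : ℝ) ≤ 15 * ((d / 15 : ℕ) : ℝ) + 14 := by exact_mod_cast h5
    linarith
  have h7 : (0 : ℝ) ≤ (d : ℝ) - 14 := by
    have : (15 : ℝ) ≤ (d : ℝ) := by exact_mod_cast hd
    linarith
  have h8 := pow_le_pow_left₀ h7 h6 2
  push_cast
  nlinarith

theorem le_kmaxR (d : ℕ) (hd : 15 ≤ d) : ENNReal.ofReal ((19 / 75 : ℝ) * ((d : ℝ) - 14) ^ 2) ≤ kmaxR d := by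
  obtain ⟨F, h1, h2, S, h3, h4⟩ := curves d hd
  refine le_trans ?_ (le_iSup (fun C : Curve d => ((realCusps C.1).encard : ℝ≥0∞)) ⟨F, h1, h2⟩)
  have h5 : ((S : Set (ℙ ℝ (Fin 3 → ℝ))).encard : ℝ≥0∞) ≤ ((realCusps F).encard : ℝ≥0∞) := by
    apply ENat.toENNReal_le.mpr
    exact Set.encard_le_encard fun P hP => h3 P hP
  refine le_trans ?_ h5
  rw [Set.encard_coe_eq_coe_finsetCard]
  rw [ENat.toENNReal_coe]
  rw [← ENNReal.ofReal_natCast]
  exact ENNReal.ofReal_le_ofReal h4

/-- **Real plane curves with more than `d ^ 2 / 4` real cusps.** In every degree `d ≥ 15` there is a real plane curve (a form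
without repeated factors) with at least `(19 / 75) (d - 14) ^ 2` real ordinary cusps. So the lower limit of `kmaxR d / d ^ 2` is
at least `19 / 75`, and the upper limit is greater than `1 / 4`. -/
theorem result :
    (∀ d : ℕ, 15 ≤ d → ∃ F : MvPolynomial (Fin 3) ℝ, F.IsHomogeneous d ∧ Squarefree F ∧
      ∃ S : Finset (ℙ ℝ (Fin 3 → ℝ)), (∀ P ∈ S, IsCusp F P.rep) ∧ (19 / 75 : ℝ) * ((d : ℝ) - 14) ^ 2 ≤ S.card) ∧
    19 / 75 ≤ liminf (fun d : ℕ => kmaxR d / (d : ℝ≥0∞) ^ 2) atTop ∧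
    1 / 4 < limsup (fun d : ℕ => kmaxR d / (d : ℝ≥0∞) ^ 2) atTop := by
  have key : (19 / 75 : ℝ≥0∞) ≤ liminf (fun d : ℕ => kmaxR d / (d : ℝ≥0∞) ^ 2) atTop := by
    have hlim : Tendsto (fun d : ℕ => ENNReal.ofReal ((19 / 75 : ℝ) * (((d : ℝ) - 14) / d) ^ 2)) atTop
        (𝓝 (ENNReal.ofReal ((19 / 75 : ℝ) * 1 ^ 2))) := by
      apply ENNReal.tendsto_ofReal
      apply Tendsto.const_mul
      apply Tendsto.pow
      have h1 : Tendsto (fun d : ℕ => (1 : ℝ) - 14 / (d : ℝ)) atTop (𝓝 (1 - 0)) :=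
        tendsto_const_nhds.sub (tendsto_const_nhds.div_atTop tendsto_natCast_atTop_atTop)
      rw [sub_zero] at h1
      refine h1.congr' ?_
      filter_upwards [eventually_gt_atTop 0] with d hd
      have : (d : ℝ) ≠ 0 := by positivity
      field_simp
    have e1 : ENNReal.ofReal ((19 / 75 : ℝ) * 1 ^ 2) = (19 / 75 : ℝ≥0∞) := by
      rw [one_pow, mul_one, ENNReal.ofReal_div_of_pos (by norm_num)]
      norm_num
    rw [e1] at hlim
    rw [← hlim.liminf_eq]
    refine liminf_le_liminf ?_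
    filter_upwards [eventually_ge_atTop 15] with d hd
    have hd0 : (0 : ℝ) < (d : ℝ) := by
      have : (15 : ℝ) ≤ (d : ℝ) := by exact_mod_cast hd
      linarith
    have h2 : ((d : ℝ≥0∞)) ^ 2 = ENNReal.ofReal ((d : ℝ) ^ 2) := by
      rw [ENNReal.ofReal_pow hd0.le, ENNReal.ofReal_natCast]
    rw [h2]
    have h3 : (19 / 75 : ℝ) * (((d : ℝ) - 14) / d) ^ 2 = ((19 / 75 : ℝ) * ((d : ℝ) - 14) ^ 2) / (d : ℝ) ^ 2 := by
      field_simp
    rw [h3, ENNReal.ofReal_div_of_pos (by positivity)]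
    exact ENNReal.div_le_div_right (le_kmaxR d hd) _
  refine ⟨curves, key, ?_⟩
  refine lt_of_lt_of_le ?_ (key.trans (liminf_le_limsup))
  rw [ENNReal.div_lt_iff (Or.inl (by norm_num)) (Or.inl (by norm_num))]
  rw [← ENNReal.mul_div_right_comm]
  rw [ENNReal.lt_div_iff_mul_lt (Or.inl (by norm_num)) (Or.inl (by norm_num))]
  norm_num

end Pool.Agent.Results.MP_3ba528_ag.AboveOneQuarter
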